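import Mathlib
import Pool.Prelude.Def_F_c31e40fa
import Pool.Agent.J4H70.FB.B
import Pool.Agent.J4H70.AS.A
import Pool.Agent.J4H70.ML.I

set_option autoImplicit false

open Filter Topology Set Metric MeasureTheory Complex N62a1eb23

namespace Pool.Agent.Results.MP_c6f924_an.CalmPairs

/-- The map `z ↦ z ^ 2 + c`. -/
def f (c : ℂ) : ℂ → ℂ := fun z => z ^ 2 + c

/-- `h` is proper of degree at most `2` from the bounded open set `U` onto a set which contains the
closure of `U`. Polynomial-like maps of degree `2` have this property. -/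
def PolynomialLike (h : ℂ → ℂ) (U : Set ℂ) : Prop :=
  IsOpen U ∧ Bornology.IsBounded U ∧ closure U ⊆ h '' U ∧
    (∀ K ⊆ h '' U, IsCompact K → IsCompact {z | z ∈ U ∧ h z ∈ K}) ∧
    ∀ w ∈ h '' U, {z | z ∈ U ∧ h z = w}.encard ≤ 2

/-- `z ↦ z ^ 2 + c` is renormalizable of period `q`. -/
def Renormalizable (c : ℂ) (q : ℕ) : Prop :=
  ∃ U : Set ℂ, PolynomialLike ((f c)^[q]) U ∧ (0 : ℂ) ∈ U ∧
    ∀ n : ℕ, 1 ≤ n → (f c)^[n * q] 0 ∈ U

/-- Calm parameters. For `q = 1` and for every period `q` of renormalization, for every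
`X > log 2 / q` and all large `n`: the critical orbits of all parameters at distance at most
`exp (- X n)` from `c` stay in the disc of radius `3` up to time `n`. -/
def Calm (c : ℂ) : Prop :=
  ∀ q : ℕ, 1 ≤ q → (q = 1 ∨ Renormalizable c q) → ∀ X : ℝ, Real.log 2 / q < X →
    ∀ᶠ n : ℕ in atTop, ∀ a : ℂ, dist a c ≤ Real.exp (-(X * n)) → ∀ m ≤ n, ‖(f a)^[m] 0‖ ≤ 3

/-- `K` is locally connected at `c` in the weak sense (connected im kleinen): the points of `K`
close to `c` are joined to `c` by small connected subsets of `K`. -/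
def LocallyConnectedAt (K : Set ℂ) (c : ℂ) : Prop :=
  ∀ ε : ℝ, 0 < ε → ∃ δ : ℝ, 0 < δ ∧ ∀ q ∈ K, dist q c < δ →
    ∃ C ⊆ K ∩ ball c ε, IsPreconnected C ∧ c ∈ C ∧ q ∈ C

/-- `K` is locally connected along `Γ`: points of `Γ` close to a point `w` of `Γ` are joined to `w`
by small connected subsets of `K`. This holds for finite and for locally connected `Γ`. -/
def LocallyConnectedAlong (K Γ : Set ℂ) : Prop :=
  ∀ w ∈ Γ, ∀ ε : ℝ, 0 < ε → ∃ δ : ℝ, 0 < δ ∧ ∀ w' ∈ Γ, dist w' w < δ →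
    ∃ C ⊆ K ∩ ball w ε, IsPreconnected C ∧ w ∈ C ∧ w' ∈ C

/-- `Γ` separates `x` and `y` in `K`. -/
def Separates (K Γ : Set ℂ) (x y : ℂ) : Prop :=
  ∃ A B : Set ℂ, IsOpen A ∧ IsOpen B ∧ Disjoint A B ∧ x ∈ A ∧ y ∈ B ∧ K \ Γ ⊆ A ∪ B

/-- The closed subset `Γ` of `K` separates `x` and `y` in `K`, and `K` is locally connected along
it. -/
def NicelySeparated (K : Set ℂ) (x y : ℂ) : Prop :=
  ∃ Γ ⊆ K, IsClosed Γ ∧ LocallyConnectedAlong K Γ ∧ Separates K Γ x y

theorem calm_of {c : ℂ} (hc : c ∈ multibrotSet 2)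
    (h : ∀ p : ℕ, 1 ≤ p → Pool.Agent.Y736.RN.Ren 2 c p → ∀ X : ℝ,
      Real.log (2 : ℕ) / p < X → Pool.Agent.J4H70.AS.Calm 2 X c) : Calm c := by
  intro q hq hr X hX
  have hren : Pool.Agent.Y736.RN.Ren 2 c q := by
    rcases hr with rfl | hr
    · exact Pool.Agent.J4H70.ML.ren_one le_rfl hc
    · exact hr
  filter_upwards [h q hq hren X (by exact_mod_cast hX)] with n hn a ha
  rw [dist_eq_norm] at ha
  exact hn a ha

/-- **Local connectivity is decided by pairs of calm parameters on countably many circles.**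

(1) Finite subsets of the Mandelbrot set `M` are admissible separators.
(2) There are countably many circles such that all boundary points of `M` on them are calm, and `M`
is locally connected if and only if any two distinct boundary points of `M` on these circles are
nicely separated in `M`.
(3) If `M` is not locally connected at `p`, then there is a continuum `L` in its boundary, through
`p`, with the same property at all its points, no two of which are nicely separated in `M`; it meets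
all small circles about `p`, and almost all of them in calm parameters only. -/
theorem result :
    (∀ Γ ⊆ mandelbrotSet, Γ.Finite → IsClosed Γ ∧ LocallyConnectedAlong mandelbrotSet Γ) ∧
    (∃ S : Set (ℂ × ℝ), S.Countable ∧ (∀ σ ∈ S, 0 < σ.2) ∧
      (∀ σ ∈ S, ∀ c ∈ frontier mandelbrotSet, dist c σ.1 = σ.2 → Calm c) ∧
      (LocallyConnectedSpace mandelbrotSet ↔
        ∀ σ ∈ S, ∀ τ ∈ S, ∀ x ∈ frontier mandelbrotSet, ∀ y ∈ frontier mandelbrotSet,
          dist x σ.1 = σ.2 → dist y τ.1 = τ.2 → x ≠ y → NicelySeparated mandelbrotSet x y)) ∧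
    ∀ p : ℂ, ¬ LocallyConnectedAt mandelbrotSet p →
      ∃ ε : ℝ, 0 < ε ∧ ∃ L ⊆ frontier mandelbrotSet, IsCompact L ∧ IsConnected L ∧ p ∈ L ∧
        (∀ s ∈ Icc 0 ε, ∃ z ∈ L, dist z p = s) ∧ (∀ᵐ s : ℝ, ∀ z ∈ L, dist z p = s → Calm z) ∧
        (∀ z ∈ L, ¬ LocallyConnectedAt mandelbrotSet z) ∧
        ∀ x ∈ L, ∀ y ∈ L, ¬ NicelySeparated mandelbrotSet x y := by
  have hK : IsCompact (multibrotSet 2) := Pool.Agent.H712R2.isCompact_multibrot (d := 2) le_rfl
  have hc : IsPreconnected (multibrotSet 2) :=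
    (Pool.Agent.H712R2.isConnected_multibrot (d := 2) le_rfl).isPreconnected
  have hae : ∀ p₀ : ℂ, ∀ᵐ s : ℝ, ∀ c ∈ frontier (multibrotSet 2), dist c p₀ = s → Calm c := by
    intro p₀
    filter_upwards [Pool.Agent.J4H70.AS.ae_calm (d := 2) le_rfl p₀] with s hs c hc' hcs
    exact calm_of (hK.isClosed.frontier_subset hc') (hs c hc' hcs)
  refine ⟨fun Γ h1 h2 => ⟨h2.isClosed, Pool.Agent.J4H70.FB.lcAlong_finite h1 h2⟩, ?_, ?_⟩
  · obtain ⟨S, h1, h2, h3, h4, -⟩ := Pool.Agent.J4H70.FB.decide hK hc hae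
    exact ⟨S, h1, h2, h3, h4⟩
  · intro p hp
    obtain ⟨ε, hε, L, hLK, hLc, hLcon, hpL, hcirc, hncik, hnsep⟩ :=
      Pool.Agent.J4H70.FB.fibre hK hc hp
    have hLf : L ⊆ frontier (multibrotSet 2) := fun z hz =>
      ⟨subset_closure (hLK hz), fun hi => hncik z hz (Pool.Agent.J4H70.ML.cik_interior hi)⟩
    refine ⟨ε, hε, L, hLf, hLc, hLcon, hpL, hcirc, ?_, hncik, ?_⟩
    · filter_upwards [hae p] with s hs z hz hzs
      exact hs z (hLf hz) hzs
    · rintro x hx y hy ⟨Γ, h1, h2, h3, h4⟩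
      exact hnsep x hx y hy Γ h1 h2 h3 h4

end Pool.Agent.Results.MP_c6f924_an.CalmPairs
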