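import Mathlib
import Pool.Prelude.Def_F_c31e40fa
import Pool.Agent.J4H70.CR.E
import Pool.Agent.J4H70.ML.I

set_option autoImplicit false

open Filter Topology Set Metric MeasureTheory Complex N62a1eb23

namespace Pool.Agent.Results.MP_c6f924_an.CloseReturns

/-- The map `z ↦ z ^ 2 + c`. -/
def f (c : ℂ) : ℂ → ℂ := fun z => z ^ 2 + c

/-- `h` is proper of degree at most `2` from the bounded open set `U` onto a set which contains the
closure of `U`. Polynomial-like maps of degree `2` have this property. -/
def PolynomialLike (h : ℂ → ℂ) (U : Set ℂ) : Prop :=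
  IsOpen U ∧ Bornology.IsBounded U ∧ closure U ⊆ h '' U ∧
    (∀ K ⊆ h '' U, IsCompact K → IsCompact {z | z ∈ U ∧ h z ∈ K}) ∧
    ∀ w ∈ h '' U, {z | z ∈ U ∧ h z = w}.encard ≤ 2

/-- `z ↦ z ^ 2 + c` is renormalizable of period `q`. -/
def Renormalizable (c : ℂ) (q : ℕ) : Prop :=
  ∃ U : Set ℂ, PolynomialLike ((f c)^[q]) U ∧ (0 : ℂ) ∈ U ∧
    ∀ n : ℕ, 1 ≤ n → (f c)^[n * q] 0 ∈ U

/-- The `n`-th point of the critical orbit as a function of the parameter. -/
def P (n : ℕ) (a : ℂ) : ℂ := (f a)^[n] 0

/-- Parameters with tame returns. For `q = 1` and for every period `q` of renormalization, for every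
`X > log 2 / q` and all large `n`: for all `m < n` with `q` dividing `n - m`, the points `P n c`
and `P m c` of the critical orbit are at distance more than `exp (- exp (X n))`, and the difference
of their velocities with respect to the parameter is at most `exp (2 X n)` times their distance. -/
def TameReturns (c : ℂ) : Prop :=
  ∀ q : ℕ, 1 ≤ q → (q = 1 ∨ Renormalizable c q) → ∀ X : ℝ, Real.log 2 / q < X →
    ∀ᶠ n : ℕ in atTop, ∀ m < n, q ∣ n - m →
      Real.exp (-Real.exp (X * n)) < dist (P n c) (P m c) ∧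
      ‖deriv (P n) c - deriv (P m) c‖ ≤ Real.exp (2 * X * n) * dist (P n c) (P m c)

/-- `K` is locally connected at `c` in the weak sense (connected im kleinen): the points of `K`
close to `c` are joined to `c` by small connected subsets of `K`. -/
def LocallyConnectedAt (K : Set ℂ) (c : ℂ) : Prop :=
  ∀ ε : ℝ, 0 < ε → ∃ δ : ℝ, 0 < δ ∧ ∀ q ∈ K, dist q c < δ →
    ∃ C ⊆ K ∩ ball c ε, IsPreconnected C ∧ c ∈ C ∧ q ∈ C

theorem tame_of {c : ℂ} (hc : c ∈ multibrotSet 2) (h : Pool.Agent.J4H70.CR.TR 2 c) :
    TameReturns c := by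
  intro q hq hr X hX
  have hren : Pool.Agent.Y736.RN.Ren 2 c q := by
    rcases hr with rfl | hr
    · exact Pool.Agent.J4H70.ML.ren_one le_rfl hc
    · exact hr
  filter_upwards [h q hq hren X (by exact_mod_cast hX)] with n hn m hm hdiv
  rw [dist_eq_norm]
  exact hn m hm hdiv

/-- **Local connectivity is decided at the parameters with tame returns.** Every parameter `p` at
which the Mandelbrot set is not locally connected is surrounded by parameters of the same kind with
tame returns, on almost every small circle about `p`. -/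
theorem result :
    (LocallyConnectedSpace mandelbrotSet ↔
      ∀ c ∈ frontier mandelbrotSet, TameReturns c → LocallyConnectedAt mandelbrotSet c) ∧
    ∀ p : ℂ, ¬ LocallyConnectedAt mandelbrotSet p →
      ∃ ε : ℝ, 0 < ε ∧ ∀ᵐ s : ℝ, 0 < s → s < ε →
        ∃ c ∈ frontier mandelbrotSet, dist c p = s ∧ TameReturns c ∧
          ¬ LocallyConnectedAt mandelbrotSet c := by
  have hcl : IsClosed (multibrotSet 2) :=
    (Pool.Agent.H712R2.isCompact_multibrot (d := 2) le_rfl).isClosed
  constructor
  · constructor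
    · intro h c hc _
      exact Pool.Agent.R240.Loc.lcs_iff.1 h c (hcl.frontier_subset hc)
    · intro h
      exact (Pool.Agent.J4H70.CR.lcs_TR (d := 2) le_rfl).2
        fun c hc hs => h c hc (tame_of (hcl.frontier_subset hc) hs)
  · intro p hp
    obtain ⟨ε, hε, h1⟩ := Pool.Agent.J4H70.CR.spread_TR (d := 2) le_rfl (p₀ := p) hp
    refine ⟨ε, hε, ?_⟩
    filter_upwards [h1] with s hs hs0 hsε
    obtain ⟨c, hc, h2, h3, h4⟩ := hs hs0 hsε
    exact ⟨c, hc, h2, tame_of (hcl.frontier_subset hc) h3, h4⟩

end Pool.Agent.Results.MP_c6f924_an.CloseReturns
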