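import Mathlib
import Pool.Prelude.Def_F_c31e40fa
import Pool.Agent.J4H70.HT.E

set_option autoImplicit false

open Filter Topology Set Metric MeasureTheory Complex N62a1eb23

namespace Pool.Agent.Results.MP_c6f924_an.HolomorphicTargets

/-- The map `z ↦ z ^ 2 + c`. -/
def f (c : ℂ) : ℂ → ℂ := fun z => z ^ 2 + c

/-- `g` is proper of degree at most `2` from the bounded open set `U` onto a set which contains the
closure of `U`. Polynomial-like maps of degree `2` have this property. -/
def PolynomialLike (g : ℂ → ℂ) (U : Set ℂ) : Prop :=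
  IsOpen U ∧ Bornology.IsBounded U ∧ closure U ⊆ g '' U ∧
    (∀ K ⊆ g '' U, IsCompact K → IsCompact {z | z ∈ U ∧ g z ∈ K}) ∧
    ∀ w ∈ g '' U, {z | z ∈ U ∧ g z = w}.encard ≤ 2

/-- `z ↦ z ^ 2 + c` is renormalizable of period `q`. -/
def Renormalizable (c : ℂ) (q : ℕ) : Prop :=
  ∃ U : Set ℂ, PolynomialLike ((f c)^[q]) U ∧ (0 : ℂ) ∈ U ∧
    ∀ n : ℕ, 1 ≤ n → (f c)^[n * q] 0 ∈ U

/-- Parameters separated from the targets `h i` on the domains `D i`. For `q = 1` and for every
period `q` of renormalization, for every `X > log 2 / q`, every `i` with `c` in `D i` and all large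
`n`, all parameters `a` in `D i` whose critical orbit hits the target at time `n`, that is
`f_a^n(0) = h i a`, are at distance more than `exp (- X n)` from `c`. -/
def Separated (D : ℕ → Set ℂ) (h : ℕ → ℂ → ℂ) (c : ℂ) : Prop :=
  ∀ q : ℕ, 1 ≤ q → (q = 1 ∨ Renormalizable c q) → ∀ X : ℝ, Real.log 2 / q < X →
    ∀ i : ℕ, c ∈ D i → ∀ᶠ n : ℕ in atTop, ∀ a ∈ D i, (f a)^[n] 0 = h i a →
      Real.exp (-(X * n)) < dist a c

/-- `K` is locally connected at `c` in the weak sense (connected im kleinen): the points of `K`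
close to `c` are joined to `c` by small connected subsets of `K`. -/
def LocallyConnectedAt (K : Set ℂ) (c : ℂ) : Prop :=
  ∀ ε : ℝ, 0 < ε → ∃ δ : ℝ, 0 < δ ∧ ∀ q ∈ K, dist q c < δ →
    ∃ C ⊆ K ∩ ball c ε, IsPreconnected C ∧ c ∈ C ∧ q ∈ C

theorem separated_of {D : ℕ → Set ℂ} {h : ℕ → ℂ → ℂ} {c : ℂ} (hc : c ∈ multibrotSet 2)
    (hs : Pool.Agent.J4H70.HT.SepT 2 D h c) : Separated D h c := by
  intro q hq hr X hX i hi
  have hren : Pool.Agent.Y736.RN.Ren 2 c q := by
    rcases hr with rfl | hr
    · exact Pool.Agent.J4H70.ML.ren_one le_rfl hc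
    · exact hr
  filter_upwards [hs q hq hren X (by exact_mod_cast hX) i hi] with n hn a ha haP
  rw [dist_eq_norm]
  exact hn a ha haP

/-- **Local connectivity is decided at the parameters that are separated from a countable family of
holomorphic targets.** The targets are arbitrary holomorphic functions `h i` on arbitrary open sets
`D i`. Every parameter `p` at which the Mandelbrot set is not locally connected is surrounded by
separated parameters of the same kind, on almost every small circle about `p`. -/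
theorem result (D : ℕ → Set ℂ) (hD : ∀ i, IsOpen (D i)) (h : ℕ → ℂ → ℂ)
    (hh : ∀ i, DifferentiableOn ℂ (h i) (D i)) :
    (LocallyConnectedSpace mandelbrotSet ↔
      ∀ c ∈ frontier mandelbrotSet, Separated D h c → LocallyConnectedAt mandelbrotSet c) ∧
    ∀ p : ℂ, ¬ LocallyConnectedAt mandelbrotSet p →
      ∃ ε : ℝ, 0 < ε ∧ ∀ᵐ s : ℝ, 0 < s → s < ε →
        ∃ c ∈ frontier mandelbrotSet, dist c p = s ∧ Separated D h c ∧
          ¬ LocallyConnectedAt mandelbrotSet c := by
  have hcl : IsClosed (multibrotSet 2) :=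
    (Pool.Agent.H712R2.isCompact_multibrot (d := 2) le_rfl).isClosed
  constructor
  · constructor
    · intro h c hc _
      exact Pool.Agent.R240.Loc.lcs_iff.1 h c (hcl.frontier_subset hc)
    · intro hs
      exact (Pool.Agent.J4H70.HT.lcs_sepT (d := 2) le_rfl hD hh).2
        fun c hc hs' => hs c hc (separated_of (hcl.frontier_subset hc) hs')
  · intro p hp
    obtain ⟨ε, hε, h1⟩ := Pool.Agent.J4H70.HT.spread_sepT (d := 2) le_rfl hD hh (p₀ := p) hp
    refine ⟨ε, hε, ?_⟩
    filter_upwards [h1] with s hs hs0 hsε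
    obtain ⟨c, hc, h2, h3, h4⟩ := hs hs0 hsε
    exact ⟨c, hc, h2, separated_of (hcl.frontier_subset hc) h3, h4⟩

end Pool.Agent.Results.MP_c6f924_an.HolomorphicTargets
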