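import Mathlib
import Pool.Prelude.Def_F_c31e40fa
import Pool.Agent.J4H70.ML.I

set_option autoImplicit false

open Filter Topology Set Metric MeasureTheory Complex N62a1eb23

namespace Pool.Agent.Results.MP_c6f924_an.PreperiodicSeparation

/-- The map `z ↦ z ^ 2 + c`. -/
def f (c : ℂ) : ℂ → ℂ := fun z => z ^ 2 + c

/-- `h` is proper of degree at most `2` from the bounded open set `U` onto a set which contains the
closure of `U`. Polynomial-like maps of degree `2` have this property. -/
def PolynomialLike (h : ℂ → ℂ) (U : Set ℂ) : Prop :=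
  IsOpen U ∧ Bornology.IsBounded U ∧ closure U ⊆ h '' U ∧
    (∀ K ⊆ h '' U, IsCompact K → IsCompact {z | z ∈ U ∧ h z ∈ K}) ∧
    ∀ w ∈ h '' U, {z | z ∈ U ∧ h z = w}.encard ≤ 2

/-- `z ↦ z ^ 2 + c` is renormalizable of period `q`. -/
def Renormalizable (c : ℂ) (q : ℕ) : Prop :=
  ∃ U : Set ℂ, PolynomialLike ((f c)^[q]) U ∧ (0 : ℂ) ∈ U ∧
    ∀ n : ℕ, 1 ≤ n → (f c)^[n * q] 0 ∈ U

/-- Separated parameters. For `q = 1` and for every period `q` of renormalization, for every
`X > log 2 / q` and all large `n`, all parameters `a` whose critical orbit is finite and closes up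
at time `n`, that is `f_a^n(0) = f_a^m(0)` for some `m < n`, with `q` dividing `n - m`, are at
distance more than `exp (- X n)` from `c`. -/
def Separated (c : ℂ) : Prop :=
  ∀ q : ℕ, 1 ≤ q → (q = 1 ∨ Renormalizable c q) → ∀ X : ℝ, Real.log 2 / q < X →
    ∀ᶠ n : ℕ in atTop, ∀ a : ℂ,
      (∃ m : ℕ, m < n ∧ q ∣ n - m ∧ (f a)^[n] 0 = (f a)^[m] 0) →
        Real.exp (-(X * n)) < dist a c

/-- `K` is locally connected at `c` in the weak sense (connected im kleinen): the points of `K`
close to `c` are joined to `c` by small connected subsets of `K`. -/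
def LocallyConnectedAt (K : Set ℂ) (c : ℂ) : Prop :=
  ∀ ε : ℝ, 0 < ε → ∃ δ : ℝ, 0 < δ ∧ ∀ q ∈ K, dist q c < δ →
    ∃ C ⊆ K ∩ ball c ε, IsPreconnected C ∧ c ∈ C ∧ q ∈ C

theorem separated_of {c : ℂ} (hc : c ∈ multibrotSet 2) (h : Pool.Agent.J4H70.ML.Sep 2 c) :
    Separated c := by
  intro q hq hr X hX
  have hren : Pool.Agent.Y736.RN.Ren 2 c q := by
    rcases hr with rfl | hr
    · exact Pool.Agent.J4H70.ML.ren_one le_rfl hc
    · exact hr
  filter_upwards [h q hq hren X (by exact_mod_cast hX)] with n hn a ha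
  rw [dist_eq_norm]
  exact hn a ha

/-- **Local connectivity is decided at the separated parameters.** Every parameter `p` at which
the Mandelbrot set is not locally connected is surrounded by separated parameters of the same
kind, on almost every small circle about `p`. -/
theorem result :
    (LocallyConnectedSpace mandelbrotSet ↔
      ∀ c ∈ frontier mandelbrotSet, Separated c → LocallyConnectedAt mandelbrotSet c) ∧
    ∀ p : ℂ, ¬ LocallyConnectedAt mandelbrotSet p →
      ∃ ε : ℝ, 0 < ε ∧ ∀ᵐ s : ℝ, 0 < s → s < ε →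
        ∃ c ∈ frontier mandelbrotSet, dist c p = s ∧ Separated c ∧
          ¬ LocallyConnectedAt mandelbrotSet c := by
  have hcl : IsClosed (multibrotSet 2) :=
    (Pool.Agent.H712R2.isCompact_multibrot (d := 2) le_rfl).isClosed
  constructor
  · constructor
    · intro h c hc _
      exact Pool.Agent.R240.Loc.lcs_iff.1 h c (hcl.frontier_subset hc)
    · intro h
      exact (Pool.Agent.J4H70.ML.lcs_sep (d := 2) le_rfl).2
        fun c hc hs => h c hc (separated_of (hcl.frontier_subset hc) hs)
  · intro p hp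
    obtain ⟨ε, hε, h1⟩ := Pool.Agent.J4H70.ML.spread_sep (d := 2) le_rfl (p₀ := p) hp
    refine ⟨ε, hε, ?_⟩
    filter_upwards [h1] with s hs hs0 hsε
    obtain ⟨c, hc, h2, h3, h4⟩ := hs hs0 hsε
    exact ⟨c, hc, h2, separated_of (hcl.frontier_subset hc) h3, h4⟩

end Pool.Agent.Results.MP_c6f924_an.PreperiodicSeparation
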